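import Mathlib
import Pool.Agent.Lib.MP_1d980c_gt.Blow.Main

set_option autoImplicit false
open Topology
open scoped Manifold ContDiff
open Metric (sphere)

namespace Pool.Agent.Results.MP_1d980c_gt.BlowUpsOfS4

/-- A closed smooth four-manifold. -/
structure Closed4 where
  M : Type
  [top : TopologicalSpace M]
  [charts : ChartedSpace (EuclideanSpace ℝ (Fin 4)) M]
  [smooth : IsManifold (𝓡 4) ∞ M]
  [t2 : T2Space M]
  [compact : CompactSpace M]

attribute [instance] Closed4.top Closed4.charts Closed4.smooth Closed4.t2 Closed4.compact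

/-- The map `β` is smooth. -/
def Smooth {X Y : Closed4} (β : X.M → Y.M) : Prop := ContMDiff (𝓡 4) (𝓡 4) ∞ β

/-- The differential of `β` at `x` (in the charts of `X` at `x` and of `Y` at `β x`). -/
noncomputable def D {X Y : Closed4} (β : X.M → Y.M) (x : X.M) :
    EuclideanSpace ℝ (Fin 4) →L[ℝ] EuclideanSpace ℝ (Fin 4) := mfderiv (𝓡 4) (𝓡 4) β x

/-- The differential of `β` at `x` is an isomorphism. -/
def Regular {X Y : Closed4} (β : X.M → Y.M) (x : X.M) : Prop := Function.Bijective (D β x)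

/-- The map `(u, v) : X → ℂ²` is smooth at `x`. -/
def SmoothAt {X : Closed4} (u v : X.M → ℂ) (x : X.M) : Prop :=
  ContMDiffAt (𝓡 4) 𝓘(ℝ, ℂ × ℂ) ∞ (fun y => (u y, v y)) x

/-- The (real) differential at `x` of the map `(u, v) : X → ℂ²` (in the chart of `X` at `x`). -/
noncomputable def DD {X : Closed4} (u v : X.M → ℂ) (x : X.M) :
    EuclideanSpace ℝ (Fin 4) →L[ℝ] ℂ × ℂ := mfderiv (𝓡 4) 𝓘(ℝ, ℂ × ℂ) (fun y => (u y, v y)) x

/-- The differential at `x` of the map `(u, v) : X → ℂ²` is an isomorphism. -/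
def RegularAt {X : Closed4} (u v : X.M → ℂ) (x : X.M) : Prop := Function.Bijective (DD u v x)

/-- `(u, v)` are smooth complex coordinates near `x`. -/
def CoordAt {X : Closed4} (u v : X.M → ℂ) (x : X.M) : Prop :=
  (∀ᶠ y in 𝓝 x, SmoothAt u v y) ∧ RegularAt u v x

/-- A point of `X` with two complex valued functions. -/
structure Mark (X : Closed4) where
  pt : X.M
  u : X.M → ℂ
  v : X.M → ℂ

/-- `s` parametrizes the exceptional curve `β⁻¹(c.pt)` by the slopes `a ∈ ℂ ∪ {∞}`. The slope is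
`c'.v = v / u`; near a point of finite slope `(u ∘ β, v / u)` are smooth complex coordinates, near
the point of slope `∞` (where `c'.v` has the junk value `0`) these are `(u / v, v ∘ β)`. -/
def Slopes {X Y : Closed4} (β : Y.M → X.M) (c : Mark X) (c' : Mark Y) (s : OnePoint ℂ → Y.M) :
    Prop :=
  Function.Injective s ∧ Set.range s = β ⁻¹' {c.pt} ∧
    (∀ a : ℂ, c'.v (s a) = a ∧ CoordAt (c.u ∘ β) c'.v (s a) ∧
      ∀ᶠ y in 𝓝 (s a), c.v (β y) = c'.v y * c.u (β y)) ∧
    c'.v (s OnePoint.infty) = 0 ∧ CoordAt (fun y => (c'.v y)⁻¹) (c.v ∘ β) (s OnePoint.infty) ∧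
    ∀ᶠ y in 𝓝 (s OnePoint.infty), c.u (β y) = (c'.v y)⁻¹ * c.v (β y)

/-- `β : Y → X` is the blow-up of `X` at the point of the mark `c` in its complex coordinates
`(u, v)`, and the mark `c'` is the point of slope `0` of the exceptional curve with the complex
coordinates `(u ∘ β, v / u)`. -/
structure IsBlowUp {X Y : Closed4} (β : Y.M → X.M) (c : Mark X) (c' : Mark Y) : Prop where
  smooth : Smooth β
  bij : ∀ x, x ≠ c.pt → ∃! y, β y = x
  reg : ∀ y, β y ≠ c.pt → Regular β y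
  u_eq : c'.u = c.u ∘ β
  slopes : ∃ s : OnePoint ℂ → Y.M, s (0 : ℂ) = c'.pt ∧ Slopes β c c' s

/-- The mark `d'` of `Y` is the pull-back of the mark `d` of `X`. -/
def Pull {X Y : Closed4} (β : Y.M → X.M) (d : Mark X) (d' : Mark Y) : Prop :=
  β d'.pt = d.pt ∧ d'.u = d.u ∘ β ∧ d'.v = d.v ∘ β

/-- The unit sphere `Sⁿ` of `ℝ^{n+1}`. -/
def S (n : ℕ) : Type := sphere (0 : EuclideanSpace ℝ (Fin (n + 1))) 1

instance (n : ℕ) : TopologicalSpace (S n) :=
  (inferInstance : TopologicalSpace (sphere (0 : EuclideanSpace ℝ (Fin (n + 1))) 1))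

/-- The standard smooth structure of `Sⁿ`. -/
noncomputable instance (n : ℕ) : ChartedSpace (EuclideanSpace ℝ (Fin n)) (S n) :=
  (inferInstance : ChartedSpace (EuclideanSpace ℝ (Fin n))
    (sphere (0 : EuclideanSpace ℝ (Fin (n + 1))) 1))

instance (n : ℕ) : IsManifold (𝓡 n) ∞ (S n) :=
  (inferInstance : IsManifold (𝓡 n) ∞ (sphere (0 : EuclideanSpace ℝ (Fin (n + 1))) 1))

instance (n : ℕ) : T2Space (S n) :=
  (inferInstance : T2Space (sphere (0 : EuclideanSpace ℝ (Fin (n + 1))) 1))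

instance (n : ℕ) : CompactSpace (S n) :=
  (inferInstance : CompactSpace (sphere (0 : EuclideanSpace ℝ (Fin (n + 1))) 1))

/-- The sphere `S⁴`. -/
noncomputable def S4 : Closed4 := ⟨S 4⟩

/-- The coordinate `x_i` of a point of `S⁴ ⊆ ℝ⁵`. -/
noncomputable def co (P : S4.M) (i : Fin 5) : ℝ :=
  (show sphere (0 : EuclideanSpace ℝ (Fin 5)) 1 from P).1 i

/-- The point `(0, 0, 0, 0, ε)` of `S⁴`, where `ε = ±1`. -/
noncomputable def pole (ε : ℝ) (h : |ε| = 1) : S4.M :=
  (⟨EuclideanSpace.single 4 ε, by simpa using h⟩ : sphere (0 : EuclideanSpace ℝ (Fin 5)) 1)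

/-- The pole `(0, 0, 0, 0, -1)` with the complex coordinates `(x₀ + i x₁, x₂ + i x₃)`. -/
noncomputable def south : Mark S4 where
  pt := pole (-1) (by simp)
  u P := ⟨co P 0, co P 1⟩
  v P := ⟨co P 2, co P 3⟩

/-- The pole `(0, 0, 0, 0, 1)` with the complex coordinates
`(((x₂ - x₁) + i (x₃ - x₀)) / √2, ((x₀ + x₃) + i (x₁ + x₂)) / √2)`. They induce on the oriented
manifold `S⁴` the orientation opposite to the one induced by the coordinates of `south`. -/
noncomputable def north : Mark S4 where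
  pt := pole 1 (by simp)
  u P := ⟨co P 2 - co P 1, co P 3 - co P 0⟩ / (Real.sqrt 2 : ℂ)
  v P := ⟨co P 0 + co P 3, co P 1 + co P 2⟩ / (Real.sqrt 2 : ℂ)

/-- `Tower a b X c d`: the closed four-manifold `X` with the marks `c`, `d` is obtained from `S⁴`
with the marks `south`, `north` by `b` blow-ups at the first and `a` blow-ups at the second mark,
in any order. -/
inductive Tower : ℕ → ℕ → ∀ X : Closed4, Mark X → Mark X → Prop
  | start : Tower 0 0 S4 south north
  | first {a b : ℕ} {X Y : Closed4} {c d : Mark X} {c' d' : Mark Y} {β : Y.M → X.M} :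
      Tower a b X c d → IsBlowUp β c c' → Pull β d d' → Tower a (b + 1) Y c' d'
  | second {a b : ℕ} {X Y : Closed4} {c d : Mark X} {c' d' : Mark Y} {β : Y.M → X.M} :
      Tower a b X c d → IsBlowUp β d d' → Pull β c c' → Tower (a + 1) b Y c' d'

/-- The smooth manifold `M` (modelled on `I`) is diffeomorphic to a complex manifold of complex
dimension `k`. -/
def IsComplex (k : ℕ) {E H : Type} [NormedAddCommGroup E] [NormedSpace ℝ E] [TopologicalSpace H]
    (I : ModelWithCorners ℝ E H) (M : Type) [TopologicalSpace M] [ChartedSpace H M] : Prop :=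
  ∃ (N : Type) (_ : TopologicalSpace N) (_ : ChartedSpace (EuclideanSpace ℂ (Fin k)) N),
    IsManifold 𝓘(ℂ, EuclideanSpace ℂ (Fin k)) ∞ N ∧
    Nonempty (Diffeomorph I 𝓘(ℝ, EuclideanSpace ℂ (Fin k)) M N ∞)

/-- The product model for `X × S^m × S^n`. -/
noncomputable def J (m n : ℕ) := (𝓡 4).prod ((𝓡 m).prod (𝓡 n))

/-! Translation to the definitions of the library. -/

private theorem toBlow {X Y : Closed4} {β : Y.M → X.M} {c : Mark X} {c' : Mark Y}
    (h : IsBlowUp β c c') :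
    Pool.Agent.BlowC.IsBlowUp β ⟨c.pt, c.u, c.v⟩ ⟨c'.pt, c'.u, c'.v⟩ := by
  obtain ⟨h1, h2, h3, h4, s, h5, h6, h7, h8, h9, h10, h11⟩ := h
  refine ⟨h1, h2, h3, h4, s, h6, h7, h5, ?_, h9, h10, h11⟩
  intro a
  obtain ⟨k1, k2, k3⟩ := h8 a
  refine ⟨k1, ?_, k3⟩
  show Pool.Agent.BlowC.CoordAt c'.u c'.v (s a)
  rw [h4]
  exact k2

private theorem ofBlow {X Y : Closed4} {β : Y.M → X.M} {c : Mark X} {c' : Mark Y}
    (h : Pool.Agent.BlowC.IsBlowUp β ⟨c.pt, c.u, c.v⟩ ⟨c'.pt, c'.u, c'.v⟩) :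
    IsBlowUp β c c' := by
  obtain ⟨h1, h2, h3, h4, s, h6, h7, h5, h8, h9, h10, h11⟩ := h
  refine ⟨h1, h2, h3, h4, s, h5, h6, h7, ?_, h9, h10, h11⟩
  intro a
  obtain ⟨k1, k2, k3⟩ := h8 a
  refine ⟨k1, ?_, k3⟩
  have k4 : Pool.Agent.BlowC.CoordAt c'.u c'.v (s a) := k2
  have h4' : c'.u = c.u ∘ β := h4
  rw [h4'] at k4
  exact k4

private theorem allGood {a b : ℕ} {X : Closed4} {c d : Mark X} (h : Tower a b X c d) :
    Pool.Agent.BlowC.AllGood (N := X.M) ⟨c.pt, c.u, c.v⟩ ⟨d.pt, d.u, d.v⟩ := by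
  induction h with
  | start => exact Pool.Agent.BlowC.base
  | first _ h1 h2 ih => exact ih.step (toBlow h1) h2
  | @second a b X Y c d c' d' β _ h1 h2 ih =>
    have h3 : Pool.Agent.BlowC.Pull β ⟨c.pt, c.u, c.v⟩ ⟨c'.pt, c'.u, c'.v⟩ := h2
    exact (ih.symm.step (toBlow h1) h3).symm

private theorem exists_first {X : Closed4} {c d : Mark X}
    (h : Pool.Agent.BlowC.AllGood (N := X.M) ⟨c.pt, c.u, c.v⟩ ⟨d.pt, d.u, d.v⟩) :
    ∃ (Y : Closed4) (c' d' : Mark Y) (β : Y.M → X.M), IsBlowUp β c c' ∧ Pull β d d' := by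
  obtain ⟨Gm, Mc, Md, hg0⟩ := h 0 0
  obtain ⟨Y, i1, i2, β, c', k1, k2, k3, k4⟩ := Pool.Agent.BlowC.exists_blowup _ hg0.c.coord
  obtain ⟨d', hd⟩ := Pool.Agent.BlowC.exists_pull k4 _ hg0.ne.symm
  exact ⟨⟨Y⟩, ⟨c'.pt, c'.u, c'.v⟩, ⟨d'.pt, d'.u, d'.v⟩, β,
    ofBlow (Y := ⟨Y⟩) (c' := ⟨c'.pt, c'.u, c'.v⟩) k4, hd⟩

private theorem exists_tower (a b : ℕ) : ∃ (X : Closed4) (c d : Mark X), Tower a b X c d := by
  induction a with
  | zero =>
    induction b with
    | zero => exact ⟨S4, south, north, Tower.start⟩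
    | succ b ih =>
      obtain ⟨X, c, d, h⟩ := ih
      obtain ⟨Y, c', d', β, h1, h2⟩ := exists_first (allGood h)
      exact ⟨Y, c', d', h.first h1 h2⟩
  | succ a ih =>
    obtain ⟨X, c, d, h⟩ := ih
    obtain ⟨Y, d', c', β, h1, h2⟩ := exists_first (allGood h).symm
    exact ⟨Y, c', d', h.second h1 h2⟩

/-- For all `a`, `b` there is a closed smooth four-manifold `X` obtained from `S⁴` by `b` blow-ups
over the south pole and `a` blow-ups over the north pole (classically, `X = a CP² # b (-CP²)`), and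
for every such `X` and all `p`, `q` the product `X × S^{2p+1} × S^{2q+1}` is diffeomorphic to a
complex manifold of complex dimension `p + q + 3`. -/
theorem result (a b : ℕ) :
    (∃ (X : Closed4) (c d : Mark X), Tower a b X c d) ∧
    ∀ (X : Closed4) (c d : Mark X), Tower a b X c d → ∀ p q m n k : ℕ,
      m = 2 * p + 1 → n = 2 * q + 1 → k = p + q + 3 → IsComplex k (J m n) (X.M × S m × S n) := by
  refine ⟨exists_tower a b, ?_⟩
  intro X c d h p q m n k hm hn hk
  subst hm hn hk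
  exact (allGood h).isComplex p q

end Pool.Agent.Results.MP_1d980c_gt.BlowUpsOfS4
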