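import Mathlib
import Pool.Agent.Lib.MP_1d980c_gt.Nod.ZX
import Pool.Agent.Lib.MP_1d980c_gt.Nod.GY
import Pool.Agent.Lib.MP_1d980c_gt.Nod.Circ

set_option autoImplicit false
open Topology Complex ComplexConjugate
open scoped Manifold ContDiff
open Metric (sphere)

namespace Pool.Agent.Results.MP_1d980c_gt.KummerNodes

/-- A compact Riemann surface (Hausdorff; not necessarily connected). -/
structure Curve where
  C : Type
  [top : TopologicalSpace C]
  [charts : ChartedSpace ℂ C]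
  [hol : IsManifold 𝓘(ℂ) ∞ C]
  [t2 : T2Space C]
  [compact : CompactSpace C]

attribute [instance] Curve.top Curve.charts Curve.hol Curve.t2 Curve.compact

/-- `f` is holomorphic near `c`. -/
def HolAt {Γ : Curve} (f : Γ.C → ℂ) (c : Γ.C) : Prop :=
  ∀ᶠ y in 𝓝 c, MDifferentiableAt 𝓘(ℂ) 𝓘(ℂ) f y

/-- The derivative of `f` at `c`, in the chart of `Γ` at `c`. -/
noncomputable def D {Γ : Curve} (f : Γ.C → ℂ) (c : Γ.C) : ℂ →L[ℂ] ℂ := mfderiv 𝓘(ℂ) 𝓘(ℂ) f c

/-- `f` is a local holomorphic coordinate near `c`. -/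
def IsCoord {Γ : Curve} (f : Γ.C → ℂ) (c : Γ.C) : Prop := HolAt f c ∧ D f c ≠ 0

/-- `f` is a meromorphic function, with the value `0` at its poles (and at its zeros). -/
structure Meromorphic (Γ : Curve) (f : Γ.C → ℂ) : Prop where
  hol : ∀ c, HolAt f c ∨ (f c = 0 ∧ HolAt (fun x => (f x)⁻¹) c)
  isolated : ∀ c, ∀ᶠ x in 𝓝[≠] c, f x ≠ 0

/-- `σ` is a holomorphic involution of the curve and `g` is an odd meromorphic function, which has
a simple zero or a simple pole at each fixed point of `σ`. -/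
structure OddFunction (Γ : Curve) (σ : Γ.C → Γ.C) (g : Γ.C → ℂ) : Prop where
  meromorphic : Meromorphic Γ g
  holomorphic : MDifferentiable 𝓘(ℂ) 𝓘(ℂ) σ
  involution : ∀ c, σ (σ c) = c
  odd : ∀ c, g (σ c) = -g c
  simple : ∀ c, σ c = c → IsCoord g c ∨ IsCoord (fun x => (g x)⁻¹) c

/-- `R` is an even meromorphic function with simple zeros and poles, where `1/2 < |g| < 2`, such
that `|R| ≤ 2` where `|g| ≤ 1`, and `|R| ≥ 1/2` where `|g| ≥ 1`. -/
structure NodeFunction (Γ : Curve) (σ : Γ.C → Γ.C) (g R : Γ.C → ℂ) : Prop where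
  meromorphic : Meromorphic Γ R
  even : ∀ c, R (σ c) = R c
  nodes : ∀ c, R c = 0 →
    (IsCoord R c ∨ IsCoord (fun x => (R x)⁻¹) c) ∧ 1 / 2 < ‖g c‖ ∧ ‖g c‖ < 2
  small : ∀ c, HolAt g c → ‖g c‖ ≤ 1 → HolAt R c ∧ ‖R c‖ ≤ 2
  large : ∀ c, (HolAt g c → 1 ≤ ‖g c‖) → HolAt (fun x => (R x)⁻¹) c ∧ ‖(R c)⁻¹‖ ≤ 2

/-- A closed smooth four-manifold. -/
structure Closed4 where
  M : Type
  [top : TopologicalSpace M]
  [charts : ChartedSpace (EuclideanSpace ℝ (Fin 4)) M]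
  [smooth : IsManifold (𝓡 4) ∞ M]
  [t2 : T2Space M]
  [compact : CompactSpace M]

attribute [instance] Closed4.top Closed4.charts Closed4.smooth Closed4.t2 Closed4.compact

/-! The manifold with nodes. -/

/-- The height `y` of a point of the circle: `η = exp (2 π i y)` and `-1/2 < y ≤ 1/2`. -/
noncomputable def height (η : Circle) : ℝ := arg (η : ℂ) / (2 * Real.pi)

/-- Five functions on a four-manifold `Z`. -/
structure Functions (Γ : Curve) (Z : Closed4) where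
  c : Z.M → Γ.C
  η : Z.M → Circle
  z : Z.M → Circle
  X : Z.M → ℂ
  Y : Z.M → ℂ

/-- The differential of the complex function `f` at `p` vanishes on the tangent vector `ξ`. -/
def Null {Z : Closed4} (f : Z.M → ℂ) (p : Z.M) (ξ : EuclideanSpace ℝ (Fin 4)) : Prop :=
  (mfderiv (𝓡 4) 𝓘(ℝ, ℂ) f p : EuclideanSpace ℝ (Fin 4) →L[ℝ] ℂ) ξ = 0

/-- The differential of the map `c` to the curve at `p` vanishes on the tangent vector `ξ`. -/
def NullC {Γ : Curve} {Z : Closed4} (c : Z.M → Γ.C) (p : Z.M) (ξ : EuclideanSpace ℝ (Fin 4)) :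
    Prop := (mfderiv (𝓡 4) 𝓘(ℝ, ℂ) c p : EuclideanSpace ℝ (Fin 4) →L[ℝ] ℂ) ξ = 0

section

variable {Γ : Curve} {Z : Closed4} (F : Functions Γ Z)

/-- The properties of `c`, `η`, `z`, `X`, `Y` at a point `p` with `η ≠ -1`, for the function `R`,
holomorphic near `c p`: `X` and `Y` are smooth, `X Y = R`, `|X|² - |Y|² = y (|R|² - 1)`, the phase
of `X` is `z` for `y < 0`, the phase of `Y` is `1 / z` for `y > 0`, and `(c, η, X, Y)` is an
immersion. -/
structure Level (R : Γ.C → ℂ) (p : Z.M) : Prop where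
  smoothX : ContMDiffAt (𝓡 4) 𝓘(ℝ, ℂ) ∞ F.X p
  smoothY : ContMDiffAt (𝓡 4) 𝓘(ℝ, ℂ) ∞ F.Y p
  prod : F.X p * F.Y p = R (F.c p)
  diff : ‖F.X p‖ ^ 2 - ‖F.Y p‖ ^ 2 = height (F.η p) * (‖R (F.c p)‖ ^ 2 - 1)
  below : height (F.η p) < 0 → F.X p = ‖F.X p‖ * F.z p
  above : 0 < height (F.η p) → F.Y p * F.z p = ‖F.Y p‖
  immersion : ∀ ξ, NullC F.c p ξ → Null (fun q => (F.η q : ℂ)) p ξ → Null F.X p ξ →
    Null F.Y p ξ → ξ = 0

/-- The functions for `1 / R`: `(c, 1 / η, z, 1 / Y, 1 / X)`. -/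
noncomputable def Functions.swap : Functions Γ Z :=
  ⟨F.c, fun p => (F.η p)⁻¹, F.z, fun p => (F.Y p)⁻¹, fun p => (F.X p)⁻¹⟩

/-- `Z` is `C × S¹ × S¹`, with the coordinates `(c, η, z)`, cut along `η = 1` and glued again
there with `z₋ = z₊ R / |R|`, and with the circles over the zeros and poles of `R` shrunk to
points (the nodes). Near `η = 1` there are the functions `X`, `Y` with `X Y = R` and
`|X|² - |Y|² = y (|R|² - 1)`, `η = exp (2 π i y)`, where `z₋ = X / |X|` and `z₊ = |Y| / Y`; near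
the poles of `R` there are instead `1 / Y` and `1 / X`, with `1 / R` and `- y`. -/
structure IsNodal (R : Γ.C → ℂ) : Prop where
  smoothc : ContMDiff (𝓡 4) 𝓘(ℝ, ℂ) ∞ F.c
  smoothη : ContMDiff (𝓡 4) (𝓡 1) ∞ F.η
  smoothz : ∀ p, F.η p ≠ 1 → ContMDiffAt (𝓡 4) (𝓡 1) ∞ F.z p
  immersion : ∀ p, F.η p ≠ 1 → ∀ ξ, NullC F.c p ξ → Null (fun q => (F.η q : ℂ)) p ξ →
    Null (fun q => (F.z q : ℂ)) p ξ → ξ = 0
  level : ∀ p, F.η p ≠ -1 → HolAt R (F.c p) → Level F R p
  level' : ∀ p, F.η p ≠ -1 → HolAt (fun x => (R x)⁻¹) (F.c p) →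
    Level F.swap (fun x => (R x)⁻¹) p
  bijective : ∀ c' η' z', η' ≠ 1 → ∃! p, F.c p = c' ∧ F.η p = η' ∧ F.z p = z'
  bijective' : ∀ c' X' Y', X' * Y' = R c' → ‖X'‖ = ‖Y'‖ →
    ∃! p, F.c p = c' ∧ F.η p = 1 ∧ F.X p = X' ∧ F.Y p = Y'

/-- The involution `τ` of `Z`: `(c, η, z) ↦ (σ c, η⁻¹, z⁻¹)`, `X ↦ Y`. -/
structure IsInvolution (σ : Γ.C → Γ.C) (τ : Z.M → Z.M) : Prop where
  smooth : ContMDiff (𝓡 4) (𝓡 4) ∞ τ
  involution : ∀ p, τ (τ p) = p
  c : ∀ p, F.c (τ p) = σ (F.c p)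
  η : ∀ p, F.η (τ p) = (F.η p)⁻¹
  z : ∀ p, F.η p ≠ 1 → F.z (τ p) = (F.z p)⁻¹
  X : ∀ p, F.η p ≠ -1 → F.X (τ p) = F.Y p

open Classical in
/-- The first complex coordinate near the fixed point `e` of `τ`: it is `g` if `c e` is a zero
of `g`, and `1 / g` if `c e` is a pole. -/
noncomputable def s (g : Γ.C → ℂ) (e q : Z.M) : ℂ :=
  if HolAt g (F.c e) then g (F.c q) else (g (F.c q))⁻¹

open Classical in
/-- The second complex coordinate near the fixed point `e` of `τ`: it is `arg z² + i arg η²` if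
`c e` is a zero of `g`, and `arg z² - i arg η²` if `c e` is a pole; where `η e = 1`, the angle
`arg z²` is replaced by `arg (X / Y)`. -/
noncomputable def t (g : Γ.C → ℂ) (e q : Z.M) : ℂ :=
  ⟨arg (if F.η e = 1 then F.X q * conj (F.Y q) else (F.z q : ℂ) ^ 2),
    (if HolAt g (F.c e) then 1 else -1) * arg ((F.η q : ℂ) ^ 2)⟩

end

/-! The resolution. -/

/-- The map `(u, v) : X → ℂ²` is smooth at `x`. -/
def SmoothAt {X : Closed4} (u v : X.M → ℂ) (x : X.M) : Prop :=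
  ContMDiffAt (𝓡 4) 𝓘(ℝ, ℂ × ℂ) ∞ (fun y => (u y, v y)) x

/-- The (real) differential at `x` of the map `(u, v) : X → ℂ²` (in the chart of `X` at `x`). -/
noncomputable def DD {X : Closed4} (u v : X.M → ℂ) (x : X.M) :
    EuclideanSpace ℝ (Fin 4) →L[ℝ] ℂ × ℂ := mfderiv (𝓡 4) 𝓘(ℝ, ℂ × ℂ) (fun y => (u y, v y)) x

/-- `(u, v)` are smooth complex coordinates near `x`. -/
def CoordAt {X : Closed4} (u v : X.M → ℂ) (x : X.M) : Prop :=
  (∀ᶠ y in 𝓝 x, SmoothAt u v y) ∧ Function.Bijective (DD u v x)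

/-- The differential of `π` at `x`. -/
noncomputable def DZ {Z X : Closed4} (π : Z.M → X.M) (x : Z.M) :
    EuclideanSpace ℝ (Fin 4) →L[ℝ] EuclideanSpace ℝ (Fin 4) := mfderiv (𝓡 4) (𝓡 4) π x

/-- The map `π` is smooth at `x`, and its differential there is an isomorphism. -/
def RegularAt {Z X : Closed4} (π : Z.M → X.M) (x : Z.M) : Prop :=
  ContMDiffAt (𝓡 4) (𝓡 4) ∞ π x ∧ Function.Bijective (DZ π x)

/-- Along the curve `k : ℂ → X`, at its point `k a`, the functions `(s², t / s)` are smooth complex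
coordinates of `X`, and `k b` is the point where they are `(0, b)`; the other points near `k a` are
images `π x` of points `x` near `e` which are not fixed by `τ`. -/
def Near {Z X : Closed4} (τ : Z.M → Z.M) (π : Z.M → X.M) (e : Z.M) (s t : Z.M → ℂ)
    (k : ℂ → X.M) (a : ℂ) : Prop :=
  ∃ α β : X.M → ℂ, CoordAt α β (k a) ∧ ∀ V ∈ 𝓝 e, ∀ᶠ y in 𝓝 (k a),
    (α y = 0 ∧ y = k (β y)) ∨
      ∃ x ∈ V, τ x ≠ x ∧ π x = y ∧ α y = s x ^ 2 ∧ t x = β y * s x ∧ s x ≠ 0

/-- The point `1 / b` of the Riemann sphere `ℂ ∪ {∞}`. -/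
noncomputable def inv (b : ℂ) : OnePoint ℂ :=
  open Classical in if b = 0 then OnePoint.infty else ((b⁻¹ : ℂ) : OnePoint ℂ)

/-- `X` is the resolution of the quotient of `Z` by the involution `τ`: the quotient map
`π : Z → X`, outside the fixed points of `τ`, is a local diffeomorphism with the fibres
`{x, τ x}`, and each fixed point `e` is replaced by the curve `k e : ℂ ∪ {∞} → X` of the values of
`t e / s e`, with the complex coordinates `((s e)², t e / s e)` and `((t e)², s e / t e)` (that is,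
the point is resolved as the singular point of `ℂ² / {±1}` in the coordinates `(s e, t e)`). -/
structure IsResolution {Z : Closed4} (τ : Z.M → Z.M) (s t : Z.M → Z.M → ℂ) (X : Closed4)
    (π : Z.M → X.M) (k : Z.M → OnePoint ℂ → X.M) : Prop where
  regular : ∀ x, τ x ≠ x → RegularAt π x
  fibres : ∀ x y, τ x ≠ x → τ y ≠ y → (π x = π y ↔ y = x ∨ y = τ x)
  injective : ∀ e e' a a', τ e = e → τ e' = e' → k e a = k e' a' → e = e' ∧ a = a'
  disjoint : ∀ e a x, τ e = e → τ x ≠ x → π x ≠ k e a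
  cover : ∀ y, (∃ x, τ x ≠ x ∧ π x = y) ∨ ∃ e a, τ e = e ∧ k e a = y
  near : ∀ e, τ e = e → ∀ a, Near τ π e (s e) (t e) (fun b : ℂ => k e (b : OnePoint ℂ)) a
  near' : ∀ e, τ e = e → ∀ a, Near τ π e (t e) (s e) (fun b : ℂ => k e (inv b)) a

/-- `X` is the Kummer type manifold of `(Γ, σ, g, R)`: the resolution of the quotient of the
manifold `Z` with nodes by its involution. -/
def IsKummer (Γ : Curve) (σ : Γ.C → Γ.C) (g R : Γ.C → ℂ) (X : Closed4) : Prop :=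
  ∃ (Z : Closed4) (F : Functions Γ Z) (τ : Z.M → Z.M) (π : Z.M → X.M)
    (k : Z.M → OnePoint ℂ → X.M), IsNodal F R ∧ IsInvolution F σ τ ∧
      IsResolution τ (s F g) (t F g) X π k

/-- The unit sphere `Sⁿ` of `ℝ^{n+1}`. -/
def S (n : ℕ) : Type := sphere (0 : EuclideanSpace ℝ (Fin (n + 1))) 1

instance (n : ℕ) : TopologicalSpace (S n) :=
  (inferInstance : TopologicalSpace (sphere (0 : EuclideanSpace ℝ (Fin (n + 1))) 1))

/-- The standard smooth structure of `Sⁿ`. -/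
noncomputable instance (n : ℕ) : ChartedSpace (EuclideanSpace ℝ (Fin n)) (S n) :=
  (inferInstance : ChartedSpace (EuclideanSpace ℝ (Fin n))
    (sphere (0 : EuclideanSpace ℝ (Fin (n + 1))) 1))

/-- The smooth manifold `M` (modelled on `I`) is diffeomorphic to a complex manifold of complex
dimension `k`. -/
def IsComplex (k : ℕ) {E H : Type} [NormedAddCommGroup E] [NormedSpace ℝ E] [TopologicalSpace H]
    (I : ModelWithCorners ℝ E H) (M : Type) [TopologicalSpace M] [ChartedSpace H M] : Prop :=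
  ∃ (N : Type) (_ : TopologicalSpace N) (_ : ChartedSpace (EuclideanSpace ℂ (Fin k)) N),
    IsManifold 𝓘(ℂ, EuclideanSpace ℂ (Fin k)) ∞ N ∧
    Nonempty (Diffeomorph I 𝓘(ℝ, EuclideanSpace ℂ (Fin k)) M N ∞)

/-- The product model for `X × S^m × S^n`. -/
noncomputable def J (m n : ℕ) := (𝓡 4).prod ((𝓡 m).prod (𝓡 n))

/-! Translation to the definitions of the library. -/

private theorem cd_iff {Γ : Curve} {f : Γ.C → ℂ} {c : Γ.C} :
    IsCoord f c ↔ Pool.Agent.Kum.Cd f c := Iff.rfl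

private theorem toOdd {Γ : Curve} {σ : Γ.C → Γ.C} {g : Γ.C → ℂ} (h : OddFunction Γ σ g) :
    Pool.Agent.Kum.OddFun σ g where
  hol := h.holomorphic
  inv := h.involution
  odd := h.odd
  mero := h.meromorphic.hol
  iso := h.meromorphic.isolated
  simple c hc := by
    rcases h.simple c hc with h | h
    · exact Or.inl (cd_iff.1 h)
    · exact Or.inr (cd_iff.1 h)

private theorem toR {Γ : Curve} {σ : Γ.C → Γ.C} {g R : Γ.C → ℂ} (h : NodeFunction Γ σ g R) :
    Pool.Agent.Nod.RFun σ g R where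
  mero := h.meromorphic.hol
  iso := h.meromorphic.isolated
  even := h.even
  node c hc := by
    obtain ⟨h1, h2⟩ := h.nodes c hc
    refine ⟨?_, h2⟩
    rcases h1 with h1 | h1
    · exact Or.inl (cd_iff.1 h1)
    · exact Or.inr (cd_iff.1 h1)
  small := h.small
  large := h.large

section

variable {Γ : Curve} {Z : Closed4} {F : Functions Γ Z} {R g : Γ.C → ℂ} {σ : Γ.C → Γ.C}
  {τ : Z.M → Z.M}

private theorem nullS {f : Z.M → Circle} {p : Z.M} (hf : ContMDiffAt (𝓡 4) (𝓡 1) ∞ f p)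
    (ξ : EuclideanSpace ℝ (Fin 4)) : Null (fun q => (f q : ℂ)) p ξ ↔
      (mfderiv (𝓡 4) (𝓡 1) f p : EuclideanSpace ℝ (Fin 4) →L[ℝ] EuclideanSpace ℝ (Fin 1)) ξ = 0 :=
  Pool.Agent.Nod.circ_ker (hf.mdifferentiableAt (by simp)) ξ

private theorem lev_iff {p : Z.M} (hη : ContMDiffAt (𝓡 4) (𝓡 1) ∞ F.η p) : Level F R p ↔
    Pool.Agent.Nod.Lev (𝓡 4) R F.c F.η F.z F.X F.Y p := by
  constructor
  · rintro ⟨h1, h2, h3, h4, h5, h6, h7⟩
    exact ⟨h1, h2, h3, h4, h5, h6, fun ξ k1 k2 k3 k4 => h7 ξ k1 ((nullS hη ξ).2 k2) k3 k4⟩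
  · rintro ⟨h1, h2, h3, h4, h5, h6, h7⟩
    exact ⟨h1, h2, h3, h4, h5, h6, fun ξ k1 k2 k3 k4 => h7 ξ k1 ((nullS hη ξ).1 k2) k3 k4⟩

private theorem inv_smooth {f : Z.M → Circle} {p : Z.M} (hf : ContMDiffAt (𝓡 4) (𝓡 1) ∞ f p) :
    ContMDiffAt (𝓡 4) (𝓡 1) ∞ (fun q => (f q)⁻¹) p := by
  have hi : ContMDiffAt (𝓡 1) (𝓡 1) ∞ (fun y : Circle => y⁻¹) (f p) :=
    (contMDiff_inv (𝓡 1) ∞).contMDiffAt
  exact hi.comp p hf

private theorem toNZ (h : IsNodal F R) : Pool.Agent.Nod.NZ (𝓡 4) R F.c F.η F.z F.X F.Y where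
  smc := h.smoothc
  smη := h.smoothη
  smz := h.smoothz
  imm p hp ξ k1 k2 k3 := h.immersion p hp ξ k1 ((nullS h.smoothη.contMDiffAt ξ).2 k2)
    ((nullS (h.smoothz p hp) ξ).2 k3)
  lev p h1 h2 := (lev_iff h.smoothη.contMDiffAt).1 (h.level p h1 h2)
  lev' p h1 h2 := (lev_iff (F := F.swap) (inv_smooth h.smoothη.contMDiffAt)).1 (h.level' p h1 h2)

private theorem toTau (h : IsInvolution F σ τ) :
    Pool.Agent.Nod.NTau (𝓡 4) σ F.c F.η F.z F.X F.Y τ where
  sm := h.smooth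
  inv := h.involution
  hc := h.c
  hη := h.η
  hz := h.z
  hX := h.X

private theorem s_eq (F : Functions Γ Z) (g : Γ.C → ℂ) (e : Z.M) :
    s F g e = Pool.Agent.Nod.sN g F.c e := by
  funext x
  unfold s Pool.Agent.Nod.sN Pool.Agent.Kum.ty Pool.Agent.Kum.aF
  by_cases h : Pool.Agent.Kum.HolAt g (F.c e)
  · have h' : HolAt g (F.c e) := h
    rw [if_pos h, if_pos h']
    simp
  · have h' : ¬ HolAt g (F.c e) := h
    rw [if_neg h, if_neg h']
    simp

private theorem t_eq (F : Functions Γ Z) (g : Γ.C → ℂ) (e : Z.M) :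
    t F g e = Pool.Agent.Nod.tN g F.c F.η F.z F.X F.Y e := by
  funext x
  unfold t Pool.Agent.Nod.tN Pool.Agent.Kum.ty Pool.Agent.Kum.sg
  by_cases h : Pool.Agent.Kum.HolAt g (F.c e)
  · have h' : HolAt g (F.c e) := h
    rw [if_pos h, if_pos h']
    simp
  · have h' : ¬ HolAt g (F.c e) := h
    rw [if_neg h, if_neg h']
    simp

private theorem kum_iff {X : Closed4} {π : Z.M → X.M} {k : Z.M → OnePoint ℂ → X.M} :
    IsResolution τ (s F g) (t F g) X π k ↔
      Pool.Agent.Kum.IsKum (𝓡 4) τ (Pool.Agent.Nod.sN g F.c)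
        (Pool.Agent.Nod.tN g F.c F.η F.z F.X F.Y) π k := by
  have hs : s F g = Pool.Agent.Nod.sN g F.c := funext (s_eq F g)
  have ht : t F g = Pool.Agent.Nod.tN g F.c F.η F.z F.X F.Y := funext (t_eq F g)
  rw [hs, ht]
  constructor
  · rintro ⟨h1, h2, h3, h4, h5, h6, h7⟩
    exact ⟨h1, h2, h3, h4, h5, h6, h7⟩
  · rintro ⟨h1, h2, h3, h4, h5, h6, h7⟩
    exact ⟨h1, h2, h3, h4, h5, h6, h7⟩

end

/-- Let `σ` be a holomorphic involution of a compact Riemann surface `C`, `g` an odd meromorphic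
function with a simple zero or a simple pole at each fixed point of `σ`, and `R` a node function.
Then the manifold `Z` with nodes exists, and so does the closed smooth four-manifold `X` obtained
by resolving the singular points of `Z / τ` in the complex coordinates `(s, t)`; and for every
such `X` and all `p`, `q` the product `X × S^{2p+1} × S^{2q+1}` is diffeomorphic to a complex
manifold of complex dimension `p + q + 3`. -/
theorem result (Γ : Curve) (σ : Γ.C → Γ.C) (g R : Γ.C → ℂ) (h : OddFunction Γ σ g)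
    (hR : NodeFunction Γ σ g R) :
    (∃ X : Closed4, IsKummer Γ σ g R X) ∧
    ∀ X : Closed4, IsKummer Γ σ g R X → ∀ p q m n k : ℕ,
      m = 2 * p + 1 → n = 2 * q + 1 → k = p + q + 3 → IsComplex k (J m n) (X.M × S m × S n) := by
  refine ⟨?_, ?_⟩
  · obtain ⟨Z, i1, i2, c, η, z, X, Y, τ, h1, h2, h3, h4, h5, h6, h7⟩ :=
      Pool.Agent.Nod.exists_Z (toOdd h) (toR hR)
    let Z' : Closed4 := ⟨Z⟩
    let F : Functions Γ Z' := ⟨c, η, z, X, Y⟩
    have hη : ∀ p, ContMDiffAt (𝓡 4) (𝓡 1) ∞ F.η p := fun p => h4.smη.contMDiffAt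
    have hF : IsNodal F R := ⟨h4.smc, h4.smη, h4.smz,
      fun p hp ξ k1 k2 k3 => h4.imm p hp ξ k1 ((nullS (hη p) ξ).1 k2)
        ((nullS (f := F.z) (h4.smz p hp) ξ).1 k3),
      fun p k1 k2 => (lev_iff (hη p)).2 (h4.lev p k1 k2),
      fun p k1 k2 => (lev_iff (F := F.swap) (inv_smooth (hη p))).2 (h4.lev' p k1 k2), h6, h7⟩
    have hT : IsInvolution F σ τ := ⟨h5.sm, h5.inv, h5.hc, h5.hη, h5.hz, h5.hX⟩
    have hdim : Module.finrank ℝ (EuclideanSpace ℝ (Fin 4)) = 4 := finrank_euclideanSpace_fin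
    obtain ⟨M, j1, j2, π, k, k1, k2, k3, k4⟩ :=
      Pool.Agent.Nod.existsN (Z := Z'.M) hdim (toOdd h) (toR hR) h4 h5
    exact ⟨⟨M⟩, Z', F, τ, π, k, hF, hT, kum_iff.2 k4⟩
  · rintro X ⟨Z, F, τ, π, k, hF, hT, hX⟩ p q m n k' hm hn hk
    subst hm hn hk
    exact Pool.Agent.Nod.complexN (toOdd h) (toR hR) (toNZ hF) (toTau hT) (kum_iff.1 hX) p q

end Pool.Agent.Results.MP_1d980c_gt.KummerNodes
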