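import Mathlib
import Pool.Agent.Lib.MP_1d980c_gt.JofC
import Pool.Agent.Lib.MP_1d980c_gt.Mg.Tor
import Pool.Agent.Lib.MP_1d980c_gt.Sf.Fin2
import Pool.Agent.Lib.MP_1d980c_gt.Sf.DpD

set_option autoImplicit false
open scoped UpperHalfPlane MatrixGroups Manifold ContDiff Matrix

namespace Pool.Agent.Results.MP_1d980c_gt.TorusBundlesOverSurfaces

section Model

variable (E : Type) [NormedAddCommGroup E] [NormedSpace ℝ E] (M : Type) [TopologicalSpace M]
  [ChartedSpace E M]

/-- A field of self-maps of the tangent spaces of `M` is smooth if the induced map of the tangent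
bundle is smooth. -/
def SmoothField [IsManifold 𝓘(ℝ, E) ∞ M]
    (J : (x : M) → TangentSpace 𝓘(ℝ, E) x → TangentSpace 𝓘(ℝ, E) x) : Prop :=
  ContMDiff 𝓘(ℝ, E).tangent 𝓘(ℝ, E).tangent ∞ (fun v : TangentBundle 𝓘(ℝ, E) M =>
    (⟨v.1, J v.1 v.2⟩ : TangentBundle 𝓘(ℝ, E) M))

/-- The smooth manifold `M` modelled on `E` carries an almost complex structure. -/
def AlmostComplex [IsManifold 𝓘(ℝ, E) ∞ M] : Prop :=
  ∃ J : (x : M) → TangentSpace 𝓘(ℝ, E) x → TangentSpace 𝓘(ℝ, E) x,
    (∀ x, IsLinearMap ℝ (J x)) ∧ (∀ (x : M) v, J x (J x v) = -v) ∧ SmoothField E M J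

/-- The smooth manifold `M` modelled on `E` is diffeomorphic to a complex manifold modelled
on `F`. -/
def IsoComplex (F : Type) [NormedAddCommGroup F] [NormedSpace ℂ F] : Prop :=
  ∃ (N : Type) (_ : TopologicalSpace N) (_ : ChartedSpace F N),
    IsManifold 𝓘(ℂ, F) ∞ N ∧ Nonempty (Diffeomorph 𝓘(ℝ, E) 𝓘(ℝ, F) M N ∞)

end Model

section Real

variable (d : ℕ) (M : Type) [TopologicalSpace M] [ChartedSpace (EuclideanSpace ℝ (Fin d)) M]

/-- `M` is a smooth manifold of real dimension `d`. -/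
abbrev IsSmooth : Prop := IsManifold (𝓡 d) ∞ M

/-- The smooth manifold `M` of real dimension `d` carries an almost complex structure. -/
def HasAlmostComplexStructure [IsSmooth d M] : Prop :=
  AlmostComplex (EuclideanSpace ℝ (Fin d)) M

/-- The smooth manifold `M` of real dimension `d` is diffeomorphic to a complex manifold of complex
dimension `k`. -/
def HasComplexStructure (k : ℕ) : Prop :=
  IsoComplex (EuclideanSpace ℝ (Fin d)) M (EuclideanSpace ℂ (Fin k))

/-- `π` presents the smooth manifold `M` of dimension `d` as the quotient of `ℝⁿ × U` by the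
equivalence relation generated by `R`. -/
structure Presents {n : ℕ} {U : Type} [TopologicalSpace U] [ChartedSpace ℂ U]
    (R : (Fin n → ℝ) × U → (Fin n → ℝ) × U → Prop) (π : (Fin n → ℝ) × U → M) : Prop where
  local_diffeo : IsLocalDiffeomorph (𝓘(ℝ, Fin n → ℝ).prod 𝓘(ℝ, ℂ)) (𝓡 d) ∞ π
  surjective : Function.Surjective π
  fibres : ∀ p p', π p = π p' ↔ Relation.EqvGen R p p'

end Real

/-- The two simply connected surfaces `U` which cover the closed oriented surfaces of positive
genus, with their groups `G` of orientation preserving motions: the complex plane with its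
translations, and the upper half plane with `SL(2,ℝ)`. -/
inductive Plane : ∀ (G U : Type) [Group G] [TopologicalSpace G] [TopologicalSpace U]
    [ChartedSpace ℂ U] [MulAction G U], Prop
  | euclidean : Plane (Multiplicative ℂ) ℂ
  | hyperbolic : Plane SL(2, ℝ) ℍ

section Data

variable {G U : Type} [Group G] [TopologicalSpace G] [TopologicalSpace U] [ChartedSpace ℂ U]
  [MulAction G U] {n : ℕ}

variable (U) in
/-- `Γ ≤ G` is discrete and acts freely and cocompactly on `U`, so that `Γ \ U` is a closed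
Riemann surface. -/
structure IsSurfaceGroup (Γ : Subgroup G) : Prop where
  discrete : DiscreteTopology Γ
  free : ∀ γ : Γ, γ ≠ 1 → ∀ w : U, γ • w ≠ w
  cocompact : ∃ K : Set U, IsCompact K ∧ ∀ w : U, ∃ γ : Γ, γ • w ∈ K

/-- The translation parts of an affine bundle over the surface `Γ \ U` with linear monodromy `ρ`:
smooth, and a cocycle modulo constants. -/
structure GluingData (Γ : Subgroup G) (ρ : Γ →* Matrix (Fin n) (Fin n) ℝ)
    (a : Γ → U → (Fin n → ℝ)) : Prop where
  smooth : ∀ γ, ContMDiff 𝓘(ℝ, ℂ) 𝓘(ℝ, Fin n → ℝ) ∞ (a γ)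
  cocycle : ∀ γ δ : Γ, ∃ c : Fin n → ℝ, ∀ w : U,
    a (γ * δ) w = ρ γ *ᵥ a δ w + a γ (δ • w) + c

/-- The identifications defining an affine torus bundle over the surface `Γ \ U`:
on `ℝⁿ × U` with coordinates `(v, w)`, translate `v` by a vector `u ∈ Λ`, or, for `γ ∈ Γ`, apply
`(v, w) ↦ (ρ(γ) v + a_γ(w), γ • w)`. -/
inductive Step (Γ : Subgroup G) (ρ : Γ →* Matrix (Fin n) (Fin n) ℝ)
    (Λ : Set (Fin n → ℝ)) (a : Γ → U → (Fin n → ℝ)) : (Fin n → ℝ) × U → (Fin n → ℝ) × U → Prop
  | fibre (u : Fin n → ℝ) (hu : u ∈ Λ) (v : Fin n → ℝ) (w : U) : Step Γ ρ Λ a (v, w) (v + u, w)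
  | base (γ : Γ) (v : Fin n → ℝ) (w : U) : Step Γ ρ Λ a (v, w) (ρ γ *ᵥ v + a γ w, γ • w)

end Data

open Pool.Agent.HypBundle Pool.Agent.SfBundle Pool.Agent.Merge in
/-- Let `m ≥ 2`, let `Γ \ U` be a closed oriented surface of positive genus and let `M` be a smooth
manifold of real dimension `2(m+1)` which is the quotient of `ℝ^{2m} × U` by the identifications
`Step Γ ρ Λ a` (an affine torus bundle over `Γ \ U`, if `Λ` is a lattice preserved by `ρ`). Then the
following are equivalent: `M` carries an almost complex structure; the monodromy matrices have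
positive determinant; `M` is diffeomorphic to a complex manifold. -/
theorem result (m : ℕ) (hm : 2 ≤ m) (G U : Type) [Group G] [TopologicalSpace G]
    [TopologicalSpace U] [ChartedSpace ℂ U] [MulAction G U] (hG : Plane G U)
    (Γ : Subgroup G) (hΓ : IsSurfaceGroup U Γ)
    (ρ : Γ →* Matrix (Fin (2 * m)) (Fin (2 * m)) ℝ)
    (Λ : Set (Fin (2 * m) → ℝ)) (a : Γ → U → (Fin (2 * m) → ℝ)) (h : GluingData Γ ρ a)
    (M : Type) [TopologicalSpace M] [ChartedSpace (EuclideanSpace ℝ (Fin (2 * (m + 1)))) M]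
    [IsSmooth (2 * (m + 1)) M] (π : (Fin (2 * m) → ℝ) × U → M)
    (hπ : Presents (2 * (m + 1)) M (Step Γ ρ Λ a) π) :
    [HasAlmostComplexStructure (2 * (m + 1)) M, ∀ γ : Γ, 0 < (ρ γ).det,
      HasComplexStructure (2 * (m + 1)) M (m + 1)].TFAE := by
  have hd := hΓ.discrete
  have hstep : ∀ q q', Step Γ ρ Λ a q q' → (∃ u ∈ Λ, q' = (q.1 + u, q.2)) ∨
      ∃ γ : Γ, q' = (ρ γ *ᵥ q.1 + a γ q.2, γ • q.2) := by
    rintro _ _ (⟨u, hu, v, w⟩ | ⟨γ, v, w⟩)
    · exact Or.inl ⟨u, hu, rfl⟩
    · exact Or.inr ⟨γ, rfl⟩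
  have h31 : HasComplexStructure (2 * (m + 1)) M (m + 1) →
      HasAlmostComplexStructure (2 * (m + 1)) M := by
    rintro ⟨N, _, _, hN, ⟨φ⟩⟩
    exact Pool.Agent.TorusBundle.exists_J_of_complex2 φ
  cases hG with
  | euclidean =>
    have hsm : ∀ γ, ContDiff ℝ ∞ (a γ) := fun γ => (h.smooth γ).contDiff
    tfae_have 1 → 2 := fun ⟨J, hlin, hJ, hsJ⟩ γ =>
      tor_det m Γ hΓ.discrete hΓ.cocompact ρ a hsm h.cocycle M π hπ.local_diffeo hstep
        (fun u hu v w => Step.fibre u hu v w) (fun γ v w => Step.base γ v w) hπ.fibres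
        J hlin hJ hsJ.continuous γ
    tfae_have 2 → 3 := fun hdet =>
      tor_complex m Γ hΓ.discrete hΓ.cocompact ρ a hsm h.cocycle M π hπ.local_diffeo hstep
        (fun u hu v w => Step.fibre u hu v w) (fun γ v w => Step.base γ v w) hπ.fibres
        hm hπ.surjective hdet
    tfae_have 3 → 1 := h31
    tfae_finish
  | hyperbolic =>
    tfae_have 1 → 2 := fun ⟨J, hlin, hJ, hsm⟩ γ =>
      det_pos_of_JH m ρ a h.smooth M π hπ.local_diffeo
        (fun γ v w => ((hπ.fibres _ _).2 (Relation.EqvGen.rel _ _ (Step.base γ v w))).symm)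
        J hlin hJ hsm.continuous γ
    tfae_have 2 → 3 := by
      intro hdet
      obtain ⟨T, V, hV, hVu, hVe⟩ := exists_frame m hm Γ hΓ.free hΓ.cocompact ρ hdet
      obtain ⟨L, N, hL, hLe, hnd⟩ := exists_LS m hm hΓ.free hΓ.cocompact ρ T V hV hVu hVe
      obtain ⟨ψ, s, hψ, hs', hψs⟩ := exists_psi Γ hΓ.cocompact ρ a h.smooth h.cocycle
      refine assembly Γ ρ L (fun γ w => eT m T N γ w) hL ?_ ?_ hLe hnd
        a (fun γ => (h.smooth γ).continuous) ψ s hψ hs' hψs Λ M π hπ.local_diffeo hπ.surjective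
        (Step Γ ρ Λ a) hstep ?_ ?_ hπ.fibres
      · intro γ i
        unfold eT
        split_ifs
        · exact (((differentiableOn_jf _).pow _).pow _).mul ((T.hd γ).inv fun w hw => κ_ne T γ hw)
        · exact (differentiableOn_jf _).pow _
      · intro γ w hw i
        unfold eT
        split_ifs
        · exact mul_ne_zero (pow_ne_zero _ (pow_ne_zero _ (jf_ne hw))) (inv_ne_zero (κ_ne T γ hw))
        · exact pow_ne_zero _ (jf_ne hw)
      · intro u hu v w
        exact Step.fibre u hu v w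
      · intro γ v w
        exact Step.base γ v w
    tfae_have 3 → 1 := h31
    tfae_finish

end Pool.Agent.Results.MP_1d980c_gt.TorusBundlesOverSurfaces
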