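import Mathlib
import Pool.Agent.Lib.MP_1d980c_gt.Wall.ProdH
import Pool.Agent.Lib.MP_1d980c_gt.Wall.SphY
import Pool.Agent.Lib.MP_1d980c_gt.Wall.Surg
import Pool.Agent.Lib.MP_1d980c_gt.Wall.TubF
import Pool.Agent.Lib.MP_1d980c_gt.Wall.TubG

set_option autoImplicit false
open Topology
open scoped Manifold ContDiff Matrix
open Metric (sphere)

namespace Pool.Agent.Results.MP_1d980c_gt.WallCrossing

/-- The space `ℂ^k`. -/
abbrev C (k : ℕ) : Type := EuclideanSpace ℂ (Fin k)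

/-- The space `ℝ^k`. -/
abbrev R (k : ℕ) : Type := EuclideanSpace ℝ (Fin k)

/-- The unit sphere `S^d` of `ℝ^{d+1}`. -/
abbrev Sph (d : ℕ) : Type := sphere (0 : R (d + 1)) 1

section Generic

variable {V W : Type} [NormedAddCommGroup V] [NormedAddCommGroup W]

/-- `f` is an isomorphism of real vector spaces. -/
def RealIso [NormedSpace ℝ V] [NormedSpace ℝ W] (f : V → W) : Prop :=
  ∃ e : V ≃L[ℝ] W, ∀ x, f x = e x

/-- `f` is an isomorphism of complex vector spaces. -/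
def ComplexIso [NormedSpace ℂ V] [NormedSpace ℂ W] (f : V → W) : Prop :=
  ∃ e : V ≃L[ℂ] W, ∀ x, f x = e x

/-- The real flow `exp (t G) x`. -/
noncomputable def flow [NormedSpace ℝ V] (G : V →L[ℝ] V) (t : ℝ) (x : V) : V :=
  NormedSpace.exp (t • G) x

/-- The complex flow `exp (t Λ) x`. -/
noncomputable def cflow [NormedSpace ℂ V] (Λ : V →L[ℂ] V) (t : ℂ) (x : V) : V :=
  NormedSpace.exp (t • Λ) x

/-- The linear vector field `G` points inwards along the spheres. -/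
def Inward [InnerProductSpace ℝ V] (G : V →L[ℝ] V) : Prop := ∀ x, x ≠ 0 → inner ℝ x (G x) < 0

/-- The point `(2πit - γc, exp (cΛ) u)`. -/
noncomputable def flat [NormedSpace ℂ V] (γ : ℂ) (Λ : V →L[ℂ] V) (t c : ℝ) (u : V) : ℂ × V :=
  (2 * Real.pi * Complex.I * t - γ * c, cflow Λ c u)

/-- The logarithm `Λ` is positive with respect to the period `γ`, `Re γ > 0`: the linear vector
field `(2πi/γ) Λ` points inwards along the spheres. -/
def Positive [InnerProductSpace ℂ V] (γ : ℂ) (Λ : V →L[ℂ] V) : Prop :=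
  0 < γ.re ∧ ∀ u, u ≠ 0 → (inner ℂ u ((2 * Real.pi * Complex.I / γ) • Λ u)).re < 0

end Generic

section Models

variable {E H E' H' : Type} [NormedAddCommGroup E] [NormedSpace ℝ E] [TopologicalSpace H]
  [NormedAddCommGroup E'] [NormedSpace ℝ E'] [TopologicalSpace H'] (J : ModelWithCorners ℝ E H)
  (J' : ModelWithCorners ℝ E' H')

/-- The smooth manifold `M` (modelled on `J`) is diffeomorphic to a complex manifold of complex
dimension `k`. -/
def IsComplex (k : ℕ) (M : Type) [TopologicalSpace M] [ChartedSpace H M] : Prop :=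
  ∃ (N : Type) (_ : TopologicalSpace N) (_ : ChartedSpace (C k) N),
    IsManifold 𝓘(ℂ, C k) ∞ N ∧ Nonempty (Diffeomorph J 𝓘(ℝ, C k) M N ∞)

/-- `f` is smooth with bijective derivatives. -/
structure Etale {X Y : Type} [TopologicalSpace X] [ChartedSpace H X] [TopologicalSpace Y]
    [ChartedSpace H' Y] (f : X → Y) : Prop where
  smooth : ContMDiff J J' ∞ f
  bijective : ∀ x, Function.Bijective (mfderiv J J' f x)

/-- `X → ∏ Y j` is smooth with bijective derivatives. -/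
structure EtaleProd {k : ℕ} {F K : Fin k → Type} [∀ j, NormedAddCommGroup (F j)]
    [∀ j, NormedSpace ℝ (F j)] [∀ j, TopologicalSpace (K j)]
    (JF : ∀ j, ModelWithCorners ℝ (F j) (K j)) {X : Type} {Y : Fin k → Type}
    [TopologicalSpace X] [ChartedSpace H X] [∀ j, TopologicalSpace (Y j)]
    [∀ j, ChartedSpace (K j) (Y j)] (h : ∀ j, X → Y j) : Prop where
  smooth : ∀ j, ContMDiff J (JF j) ∞ (h j)
  bijective : ∀ x, Function.Bijective fun (v : TangentSpace J x) (j : Fin k) =>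
    mfderiv J (JF j) (h j) x v

/-- `π : V → N` is a surjective local diffeomorphism. -/
def IsCover {V N : Type} [NormedAddCommGroup V] [NormedSpace ℝ V] [TopologicalSpace N]
    [ChartedSpace H N] (π : V → N) : Prop :=
  IsLocalDiffeomorph 𝓘(ℝ, V) J ∞ π ∧ Function.Surjective π

end Models

section Manifolds

variable {I α β ν : Type} [Fintype α] [Fintype β] [Fintype ν] [DecidableEq α] [DecidableEq ν]
  {k : ℕ}

variable (I α β ν k) in
/-- Transformations `(p, z, s) ↦ (A i p + τ i, f i z, s + e i)` of `ℝ^a × ℂ^b × ℝ^k` and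
`c i` of `ℂ^n`. -/
structure Data where
  A : I → Matrix α α ℝ
  τ : I → α → ℝ
  f : I → (β → ℂ) ≃ (β → ℂ)
  e : I → Fin k → ℝ
  c : I → Matrix ν ν ℂ
  unit_A : ∀ i, IsUnit (A i).det
  unit_c : ∀ i, IsUnit (c i).det
  holomorphic_f : ∀ i, ContDiff ℂ ∞ (f i) ∧ ContDiff ℂ ∞ (f i).symm

/-- The identifications `(p, z, s) ∼ (A i p + τ i, f i z, s + e i)`. -/
inductive Step (D : Data I α β ν k) :
    (α → ℝ) × (β → ℂ) × (Fin k → ℝ) → (α → ℝ) × (β → ℂ) × (Fin k → ℝ) → Prop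
  | gen (i : I) (p : α → ℝ) (z : β → ℂ) (s : Fin k → ℝ) :
      Step D (p, z, s) (D.A i *ᵥ p + D.τ i, D.f i z, s + D.e i)

/-- `π` presents `N` as the quotient of `ℝ^a × ℂ^b × ℝ^k` by the group generated by the
transformations of `D`. -/
structure Presents (D : Data I α β ν k) {E H : Type} [NormedAddCommGroup E] [NormedSpace ℝ E]
    [TopologicalSpace H] (J : ModelWithCorners ℝ E H) {N : Type} [TopologicalSpace N]
    [ChartedSpace H N] (π : (α → ℝ) × (β → ℂ) × (Fin k → ℝ) → N) : Prop where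
  cover : IsCover J π
  fibres : ∀ q q', π q = π q' ↔ Relation.EqvGen (Step D) q q'

/-- `ψ : X × ℝ^k → ℝ^a × ℂ^n` is étale and `ψ (x, s + e i) = (A i, c i) ψ (x, s)`. -/
structure Develops (D : Data I α β ν k) {E H : Type} [NormedAddCommGroup E] [NormedSpace ℝ E]
    [TopologicalSpace H] (J : ModelWithCorners ℝ E H) {X : Type} [TopologicalSpace X]
    [ChartedSpace H X] (ψ : X × (Fin k → ℝ) → (α → ℝ) × (ν → ℂ)) : Prop where
  etale : Etale (J.prod 𝓘(ℝ, Fin k → ℝ)) 𝓘(ℝ, (α → ℝ) × (ν → ℂ)) ψ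
  equivariant : ∀ i x s, ψ (x, s + D.e i) = (D.A i *ᵥ (ψ (x, s)).1, D.c i *ᵥ (ψ (x, s)).2)

omit [Fintype α] [Fintype β] [Fintype ν] [DecidableEq α] [DecidableEq ν] in
/-- The coordinates `Φ (p, z, s, x) = (p + i ψ₁ (x, s), z, ψ₂ (x, s))` on the cover of `N × X`, with
values in `ℂ^a × ℂ^b × ℂ^n`. -/
noncomputable def Phi {X : Type} (ψ : X × (Fin k → ℝ) → (α → ℝ) × (ν → ℂ))
    (q : ((α → ℝ) × (β → ℂ) × (Fin k → ℝ)) × X) : (α → ℂ) × (β → ℂ) × (ν → ℂ) :=
  (fun a => (q.1.1 a : ℂ) + Complex.I * ((ψ (q.2, q.1.2.2)).1 a : ℂ), q.1.2.1,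
    (ψ (q.2, q.1.2.2)).2)

end Manifolds

section Surgery

variable {r s m : ℕ} {Y : Type}

/-- The maps `(t, c, u) ↦ e i t c u`, `‖u‖ < 1`, induce an injection of the disjoint union of `r`
copies of `(ℝ/ℤ)² × D^{2s}` into `Y`. -/
def AreTubes (e : Fin r → ℝ → ℝ → C s → Y) : Prop :=
  ∀ i t c u i' t' c' u', ‖u‖ < 1 → ‖u'‖ < 1 → (e i t c u = e i' t' c' u' ↔
    i' = i ∧ (∃ k : ℤ, t' = t + k) ∧ (∃ k : ℤ, c' = c + k) ∧ u' = u)

/-- The complement of the tori `u = 0`. -/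
def Off (e : Fin r → ℝ → ℝ → C s → Y) : Set Y := {y | ∀ i t c, y ≠ e i t c 0}

/-- `M` is obtained from `Y` by surgery along the tubes `e`: it is the union of the open subset
`j₁ (Off e)` and of `r` disjoint copies `j₂ i` of `ℝ/ℤ × D² × S^{2s-1}` (with coordinates `t`, `y`
and `ι σ`), and the point `(t, ρ e^{2πic}, σ)` of the `i`-th copy, `0 < ρ < 1`, is the point
`(t, c, ρ ι σ)` of the `i`-th tube. So the circles of the coordinate `c` bound discs in `M`. -/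
structure IsSurgery {EY HY : Type} [NormedAddCommGroup EY] [NormedSpace ℝ EY]
    [TopologicalSpace HY] (IY : ModelWithCorners ℝ EY HY) [TopologicalSpace Y] [ChartedSpace HY Y]
    {E H : Type} [NormedAddCommGroup E] [NormedSpace ℝ E] [TopologicalSpace H]
    (J : ModelWithCorners ℝ E H) {M : Type} [TopologicalSpace M] [ChartedSpace H M]
    (ι : R (m + 1) → C s) (e : Fin r → ℝ → ℝ → C s → Y) (j₁ : Y → M)
    (j₂ : Fin r → (ℝ × ℂ) × Sph m → M) : Prop where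
  iso : RealIso ι
  isometry : ∀ x, ‖ι x‖ = ‖x‖
  local₁ : ∀ y ∈ Off e, IsLocalDiffeomorphAt IY J ∞ j₁ y
  inj₁ : ∀ y ∈ Off e, ∀ y' ∈ Off e, j₁ y = j₁ y' → y = y'
  local₂ : ∀ i q, ‖q.1.2‖ < 1 → IsLocalDiffeomorphAt (𝓘(ℝ, ℝ × ℂ).prod (𝓡 m)) J ∞ (j₂ i) q
  fibres₂ : ∀ i t y σ i' t' y' σ', ‖y‖ < 1 → ‖y'‖ < 1 →
    (j₂ i ((t, y), σ) = j₂ i' ((t', y'), σ') ↔ i' = i ∧ (∃ k : ℤ, t' = t + k) ∧ y' = y ∧ σ' = σ)
  glue : ∀ (i : Fin r) (t c ρ : ℝ) (σ : Sph m), 0 < ρ → ρ < 1 →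
    j₂ i ((t, (ρ : ℂ) * Complex.exp (2 * Real.pi * Complex.I * c)), σ) =
      j₁ (e i t c ((ρ : ℂ) • ι σ.1))
  cores : ∀ i t σ, ∀ y ∈ Off e, j₂ i ((t, 0), σ) ≠ j₁ y
  cover : ∀ x, (∃ y ∈ Off e, j₁ y = x) ∨ ∃ i t y σ, ‖y‖ < 1 ∧ j₂ i ((t, y), σ) = x

variable {α β ν X N : Type} {k : ℕ}

/-- Near `w₀`, the map `F` lifts to the cover of `N × X`, and the lift is holomorphic in the
coordinates `Phi ψ`. -/
def HolomorphicAt [Fintype α] [Fintype β] [Fintype ν] [TopologicalSpace X]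
    (ψ : X × (Fin k → ℝ) → (α → ℝ) × (ν → ℂ))
    (π : (α → ℝ) × (β → ℂ) × (Fin k → ℝ) → N) (F : ℂ × C s → N × X) (w₀ : ℂ × C s) : Prop :=
  ∃ g : ℂ × C s → ((α → ℝ) × (β → ℂ) × (Fin k → ℝ)) × X, ContinuousAt g w₀ ∧
    ContDiffAt ℂ ∞ (fun w => Phi ψ (g w)) w₀ ∧ ∀ᶠ w in 𝓝 w₀, F w = (π (g w).1, (g w).2)

/-- `F i` is a holomorphic embedding of the tube `‖exp(-cΛ) U‖ < 1` of the flat bundle over the
elliptic curve `ℂ/(2πiℤ + γℤ)` with holonomy `1` and `exp Λ` into `N × X`, and the images for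
different `i` are disjoint. -/
structure FlatTubes [Fintype α] [Fintype β] [Fintype ν] [TopologicalSpace X]
    (ψ : X × (Fin k → ℝ) → (α → ℝ) × (ν → ℂ))
    (π : (α → ℝ) × (β → ℂ) × (Fin k → ℝ) → N) (γ : Fin r → ℂ) (Λ : Fin r → C s →L[ℂ] C s)
    (F : Fin r → ℂ × C s → N × X) : Prop where
  holomorphic : ∀ i t c u, ‖u‖ < 1 → HolomorphicAt ψ π (F i) (flat (γ i) (Λ i) t c u)
  tubes : AreTubes fun i t c u => F i (flat (γ i) (Λ i) t c u)

end Surgery

/-- Let `N` be the quotient of `ℝ^a × ℂ^b × ℝ^k` presented by `D`, and let `X` be developed by `ψ`.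
Then each manifold `M` obtained from `N × X` by surgery along `r ≥ 0` disjoint flat tubes with
positive logarithms (for `r = 0`: `M = N × X`) is diffeomorphic to a complex manifold. -/
def MainTheorem : Prop :=
  ∀ (I α β ν : Type) [Fintype α] [Fintype β] [Fintype ν] [DecidableEq α] [DecidableEq ν] (k : ℕ)
    (D : Data I α β ν k) (l : ℕ) (N : Type) [TopologicalSpace N] [T2Space N]
    [ChartedSpace (R l) N] [IsManifold (𝓡 l) ∞ N]
    (π : (α → ℝ) × (β → ℂ) × (Fin k → ℝ) → N), Presents D (𝓡 l) π →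
  ∀ (E H X : Type) [NormedAddCommGroup E] [NormedSpace ℝ E] [FiniteDimensional ℝ E]
    [TopologicalSpace H] (J : ModelWithCorners ℝ E H) [J.Boundaryless] [TopologicalSpace X]
    [T2Space X] [ChartedSpace H X] [IsManifold J ∞ X]
    (ψ : X × (Fin k → ℝ) → (α → ℝ) × (ν → ℂ)), Develops D J ψ →
  ∀ (r s : ℕ) (γ : Fin r → ℂ) (Λ : Fin r → C s →L[ℂ] C s) (F : Fin r → ℂ × C s → N × X),
    s + 1 = Fintype.card α + Fintype.card β + Fintype.card ν →
    (∀ i, Positive (γ i) (Λ i)) → FlatTubes ψ π γ Λ F →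
  ∀ (m : ℕ) (E' H' M : Type) [NormedAddCommGroup E'] [NormedSpace ℝ E'] [FiniteDimensional ℝ E']
    [TopologicalSpace H'] (J' : ModelWithCorners ℝ E' H') [J'.Boundaryless] [TopologicalSpace M]
    [ChartedSpace H' M] [IsManifold J' ∞ M] (ι : R (m + 1) → C s)
    (j₁ : N × X → M) (j₂ : Fin r → (ℝ × ℂ) × Sph m → M),
    IsSurgery ((𝓡 l).prod J) J' ι (fun i t c u => F i (flat (γ i) (Λ i) t c u)) j₁ j₂ →
    IsComplex J' (s + 1) M

/-- Products of `k` spheres (one for each coordinate of `ℝ^k`), or manifolds `X` étale over them,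
are developed by linear flows `exp (s_j G_j)` which point inwards. -/
def SphereTheorem : Prop :=
  ∀ (I α β ν : Type) [Fintype α] [Fintype β] [Fintype ν] [DecidableEq α] [DecidableEq ν] (k : ℕ)
    (D : Data I α β ν k) (d : Fin k → ℕ) (E H X : Type) [NormedAddCommGroup E] [NormedSpace ℝ E]
    [TopologicalSpace H] (J : ModelWithCorners ℝ E H) [TopologicalSpace X] [ChartedSpace H X]
    (h : ∀ j, X → Sph (d j)), EtaleProd J (fun j => 𝓡 (d j)) h →
  ∀ (κ : (∀ j, R (d j + 1)) → (α → ℝ) × (ν → ℂ)) (G : ∀ j, R (d j + 1) →L[ℝ] R (d j + 1)),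
    RealIso κ → (∀ j, Inward (G j)) →
    (∀ i y, κ (fun j => flow (G j) (D.e i j) (y j)) = (D.A i *ᵥ (κ y).1, D.c i *ᵥ (κ y).2)) →
    Develops D J fun y : X × (Fin k → ℝ) => κ fun j => flow (G j) (y.2 j) (h j y.1).1

section Tubes

/-- `π` presents `N` as the mapping torus of the transformation `(ρ, B)` of `(ℝ × ℂ^b)/S`, where
`S` is a discrete subgroup. -/
structure MappingTorus {b : ℕ} (ρ : ℝ) (B : Matrix (Fin b) (Fin b) ℂ)
    (S : Set ((Fin 1 → ℝ) × (Fin b → ℂ))) {E H : Type} [NormedAddCommGroup E]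
    [NormedSpace ℝ E] [TopologicalSpace H] (J : ModelWithCorners ℝ E H) {N : Type}
    [TopologicalSpace N] [ChartedSpace H N]
    (π : (Fin 1 → ℝ) × (Fin b → ℂ) × (Fin 1 → ℝ) → N) : Prop where
  pos : 0 < ρ
  lt_one : ρ < 1
  unit : IsUnit B.det
  zero : 0 ∈ S
  discrete : ∃ δ > 0, ∀ x ∈ S, ‖x‖ < δ → x = 0
  invariant : ∀ x ∈ S, ∀ m : ℤ, (ρ ^ m • x.1, B ^ m *ᵥ x.2) ∈ S
  cover : IsCover J π
  fibres : ∀ q q', π q = π q' ↔ ∃ m : ℤ, ∃ x ∈ S,
    q' = ((ρ ^ m : ℝ) • q.1 + x.1, B ^ m *ᵥ q.2.1 + x.2, q.2.2 + fun _ => (m : ℝ))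

/-- The transformation `(ρ, B, ρ)` of `ℂ × ℂ^b × ℂ^n`. -/
noncomputable def trans {b n : ℕ} (ρ : ℝ) (B : Matrix (Fin b) (Fin b) ℂ)
    (w : (Fin 1 → ℂ) × (Fin b → ℂ) × (Fin n → ℂ)) : (Fin 1 → ℂ) × (Fin b → ℂ) × (Fin n → ℂ) :=
  ((ρ : ℂ) • w.1, B *ᵥ w.2.1, (ρ : ℂ) • w.2.2)

/-- Holonomies for `r` tubes in `N × S^{2n}`: the core of the `i`-th tube comes from the line
`ℂ (0, 0, v i)`, and in the linear coordinates `L i` the transformation `(ρ, B, ρ)` is
`(exp (-γ i), exp (Λ i))`. -/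
structure TubeData {b n r : ℕ} (ρ : ℝ) (B : Matrix (Fin b) (Fin b) ℂ) (v : Fin r → Fin n → ℂ)
    (γ : Fin r → ℂ) (Λ : Fin r → C (b + n) →L[ℂ] C (b + n))
    (L : Fin r → ℂ × C (b + n) → (Fin 1 → ℂ) × (Fin b → ℂ) × (Fin n → ℂ)) : Prop where
  period : ∀ i, Complex.exp (-γ i) = ρ
  iso : ∀ i, ComplexIso (L i)
  intertwines : ∀ i z U, L i (ρ * z, cflow (Λ i) 1 U) = trans ρ B (L i (z, U))
  core : ∀ i, L i (1, 0) = (0, 0, v i)

/-- The map `(x, s) ↦ ρ^s κ x` on `S^{2n} × ℝ`. -/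
noncomputable def scal {n : ℕ} (ρ : ℝ) (κ : R (2 * n + 1) → (Fin 1 → ℝ) × (Fin n → ℂ))
    (y : Sph (2 * n) × (Fin 1 → ℝ)) : (Fin 1 → ℝ) × (Fin n → ℂ) :=
  Real.exp (y.2 0 * Real.log ρ) • κ y.1.1

/-- A mapping torus `N` and `X = S^{2n}` satisfy the hypotheses of `MainTheorem`, and `N × S^{2n}`
contains flat tubes `L i (e^z, ε U)` around any number `r` of elliptic curves; for diagonal `B` all
logarithms can be chosen positive. -/
def TubesTheorem : Prop :=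
  ∀ (b n : ℕ) (ρ : ℝ) (B : Matrix (Fin b) (Fin b) ℂ)
    (S : Set ((Fin 1 → ℝ) × (Fin b → ℂ))) (l : ℕ) (N : Type) [TopologicalSpace N]
    [ChartedSpace (R l) N] (π : (Fin 1 → ℝ) × (Fin b → ℂ) × (Fin 1 → ℝ) → N),
    MappingTorus ρ B S (𝓡 l) π →
  ∀ κ : R (2 * n + 1) → (Fin 1 → ℝ) × (Fin n → ℂ), RealIso κ →
    (∃ D : Data (ℤ × S) (Fin 1) (Fin b) (Fin n) 1, Presents D (𝓡 l) π ∧
      Develops D (𝓡 (2 * n)) (scal ρ κ)) ∧
  ∀ (r : ℕ) (v : Fin r → Fin n → ℂ), (∀ i, v i ≠ 0) →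
    (∀ i i', i ≠ i' → LinearIndependent ℂ ![v i, v i']) →
    (∀ γ Λ L, TubeData ρ B v γ Λ L → ∃ ε₀ > 0, ∀ ε : ℝ, 0 < ε → ε < ε₀ →
      ∃ F : Fin r → ℂ × C (b + n) → N × Sph (2 * n), FlatTubes (scal ρ κ) π γ Λ F ∧
        ∀ i t c u, ‖u‖ < 1 → ∃ q, F i (flat (γ i) (Λ i) t c u) = (π q.1, q.2) ∧
          Phi (scal ρ κ) q = L i (Complex.exp (flat (γ i) (Λ i) t c u).1,
            (ε : ℂ) • (flat (γ i) (Λ i) t c u).2)) ∧
    ∀ β : Fin b → ℂ, B = Matrix.diagonal β → ∃ γ Λ L, TubeData ρ B v γ Λ L ∧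
      ∀ i, Positive (γ i) (Λ i)

end Tubes

section Own

variable {I α β ν : Type} [Fintype α] [Fintype β] [Fintype ν] [DecidableEq α] [DecidableEq ν]
  {k : ℕ}

open Pool.Agent

private lemma step_iff (D : Data I α β ν k) (q q' : (α → ℝ) × (β → ℂ) × (Fin k → ℝ)) :
    Step D q q' ↔ WallC.GStep D.A D.τ (fun i => D.f i) D.e q q' := by
  constructor
  · rintro ⟨i, p, z, s⟩
    exact WallC.GStep.gen i p z s
  · rintro ⟨i, p, z, s⟩
    exact Step.gen i p z s

private lemma eqv_iff (D : Data I α β ν k) (q q' : (α → ℝ) × (β → ℂ) × (Fin k → ℝ)) :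
    Relation.EqvGen (Step D) q q' ↔
      Relation.EqvGen (WallC.GStep D.A D.τ (fun i => D.f i) D.e) q q' := by
  constructor
  · exact fun h => Relation.EqvGen.mono (fun a b h => (step_iff D a b).1 h) _ _ h
  · exact fun h => Relation.EqvGen.mono (fun a b h => (step_iff D a b).2 h) _ _ h

private theorem main_main : MainTheorem := by
  intro I α β ν _ _ _ _ _ k D l N _ _ _ _ π hπ E H X _ _ _ _ J _ _ _ _ _ ψ hψ r s γ Λ F hs hpos hF
    m E' H' M _ _ _ _ J' _ _ _ _ ι j₁ j₂ hS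
  obtain ⟨ι', hι⟩ := hS.iso
  obtain rfl : ι = ι' := funext hι
  have L : ((α → ℂ) × (β → ℂ) × (ν → ℂ)) ≃L[ℂ] C (s + 1) := by
    refine ContinuousLinearEquiv.ofFinrankEq ?_
    rw [Module.finrank_prod, Module.finrank_prod, finrank_euclideanSpace, Fintype.card_fin,
      Module.finrank_fintype_fun_eq_card, Module.finrank_fintype_fun_eq_card,
      Module.finrank_fintype_fun_eq_card, hs, add_assoc]
  have L' : (ℂ × C s) ≃L[ℂ] C (s + 1) := by
    refine ContinuousLinearEquiv.ofFinrankEq ?_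
    rw [Module.finrank_prod, finrank_euclideanSpace, finrank_euclideanSpace, Fintype.card_fin,
      Fintype.card_fin, Module.finrank_self, add_comm]
  obtain ⟨N', i1, i2, i3, φ, hφ⟩ := WallC.prod_complex (I := I) ψ L D.A D.τ D.f D.e D.c D.unit_A
    D.holomorphic_f D.unit_c hψ.etale.smooth hψ.etale.bijective hψ.equivariant π hπ.cover.1
    hπ.cover.2 (fun q q' => (hπ.fibres q q').trans (eqv_iff D q q'))
  have : T2Space N' := φ.toHomeomorph.t2Space
  have hoff : ∀ y : N', (∀ i t c, y ≠ φ (F i (WallC.tubeZ (γ i) (Λ i) t c 0))) →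
      φ.symm y ∈ Off fun i t c u => F i (flat (γ i) (Λ i) t c u) := by
    intro y hy i t c hc
    have hc' : φ.symm y = F i (flat (γ i) (Λ i) t c 0) := hc
    refine hy i t c ?_
    change y = φ (F i (flat (γ i) (Λ i) t c 0))
    rw [← hc']
    exact (φ.apply_symm_apply y).symm
  have hon : ∀ y ∈ Off (fun i t c u => F i (flat (γ i) (Λ i) t c u)),
      ∀ i t c, φ y ≠ φ (F i (WallC.tubeZ (γ i) (Λ i) t c 0)) := by
    intro y hy i t c hc
    exact hy i t c (φ.injective hc)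
  refine WallC.surgery_complex γ (fun i => (hpos i).1) Λ (fun i => (hpos i).2) ι' hS.isometry L'
    (fun i w => φ (F i w)) ?_ ?_ (fun y => j₁ (φ.symm y)) j₂ ?_ ?_ hS.local₂ ?_ hS.fibres₂ ?_ ?_
  · intro i t c u hu
    obtain ⟨g, hg1, hg2, hg3⟩ := hF.holomorphic i t c u hu
    obtain ⟨σ, hσ1, hσ2⟩ := hφ (g (flat (γ i) (Λ i) t c u))
    have h1 : (fun w => φ (F i w)) =ᶠ[𝓝 (flat (γ i) (Λ i) t c u)] fun w =>
        σ (Phi ψ (g w)) := by
      filter_upwards [hg3, hg1.eventually hσ2] with w hw hw'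
      rw [hw]
      exact hw'
    refine ContMDiffAt.congr_of_eventuallyEq ?_ h1
    exact ContMDiffAt.comp (g := σ) (f := fun w => Phi ψ (g w)) _ hσ1 hg2.contMDiffAt
  · intro i t c u i' t' c' u' hu hu'
    exact φ.injective.eq_iff.trans (hF.tubes i t c u i' t' c' u' hu hu')
  · intro y hy
    exact IsLocalDiffeomorphAt.comp (g := j₁) (f := φ.symm) _ _
      (φ.symm.isLocalDiffeomorph y) (hS.local₁ _ (hoff y hy))
  · intro y y' hy hy' hyy
    exact φ.symm.injective (hS.inj₁ _ (hoff y hy) _ (hoff y' hy') hyy)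
  · intro i t c ρ σ h0 h1
    have h2 := hS.glue i t c ρ σ h0 h1
    rw [h2]
    change j₁ _ = j₁ (φ.symm (φ (F i (flat (γ i) (Λ i) t c ((ρ : ℂ) • ι' σ.1)))))
    rw [φ.symm_apply_apply]
  · intro i t σ y hy
    exact hS.cores i t σ _ (hoff y hy)
  · intro x
    rcases hS.cover x with ⟨y, hy, rfl⟩ | hx
    · refine Or.inl ⟨φ y, hon y hy, ?_⟩
      simp
    · exact Or.inr hx

private theorem sphere_main : SphereTheorem := by
  intro I α β ν _ _ _ _ _ k D d E H X _ _ _ J _ _ h hX κ G hκ hG he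
  obtain ⟨κ', hκ'⟩ := hκ
  obtain rfl : κ = κ' := funext hκ'
  refine ⟨⟨WallC.flowPsi_contMDiff G κ' h hX.smooth,
    WallC.flowPsi_bij G κ' h hG hX.smooth hX.bijective⟩, fun i x s => ?_⟩
  exact WallC.flowPsi_equiv G κ' h (D.e i) (fun w => (D.A i *ᵥ w.1, D.c i *ᵥ w.2)) (he i) x s

end Own

section OwnT

open Pool.Agent

variable {b : ℕ} {ρ : ℝ} {B : Matrix (Fin b) (Fin b) ℂ}

/-- The data of a mapping torus. -/
private noncomputable def torusData (n : ℕ) (hρ : 0 < ρ) (hB : IsUnit B.det)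
    (S : Set ((Fin 1 → ℝ) × (Fin b → ℂ))) :
    Data (ℤ × S) (Fin 1) (Fin b) (Fin n) 1 where
  A i := (ρ ^ i.1 : ℝ) • (1 : Matrix (Fin 1) (Fin 1) ℝ)
  τ i := i.2.1.1
  f i :=
    { toFun := fun z => B ^ i.1 *ᵥ z + i.2.1.2
      invFun := fun z => (B ^ i.1)⁻¹ *ᵥ (z - i.2.1.2)
      left_inv := fun z => by
        simp [Matrix.mulVec_mulVec, Matrix.nonsing_inv_mul _ (hB.det_zpow i.1)]
      right_inv := fun z => by
        simp [Matrix.mulVec_mulVec, Matrix.mul_nonsing_inv _ (hB.det_zpow i.1)] }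
  e i := fun _ => (i.1 : ℝ)
  c i := ((ρ ^ i.1 : ℝ) : ℂ) • (1 : Matrix (Fin n) (Fin n) ℂ)
  unit_A i := by
    rw [Matrix.det_smul, Matrix.det_one, mul_one]
    exact (pow_ne_zero _ (zpow_pos hρ i.1).ne').isUnit
  unit_c i := by
    rw [Matrix.det_smul, Matrix.det_one, mul_one]
    refine (pow_ne_zero _ ?_).isUnit
    exact_mod_cast (zpow_pos hρ i.1).ne'
  holomorphic_f i := by
    have h : ∀ (Q : Matrix (Fin b) (Fin b) ℂ), ContDiff ℂ ∞ fun w : Fin b → ℂ => Q *ᵥ w :=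
      fun Q => (LinearMap.toContinuousLinearMap Q.mulVecLin).contDiff
    exact ⟨(h _).add contDiff_const, (h _).comp (contDiff_id.sub contDiff_const)⟩

private theorem tubes_main : TubesTheorem := by
  intro b n ρ B S l N _ _ π hπ κ₀ hκ
  obtain ⟨κ, hκ'⟩ := hκ
  obtain rfl : κ₀ = κ := funext hκ'
  refine ⟨⟨torusData n hπ.pos hπ.unit S, ⟨hπ.cover, fun q q' => ?_⟩,
    ⟨⟨WallC.scalPsi_contMDiff κ, WallC.scalPsi_bij κ hπ.pos hπ.lt_one⟩, fun i x s => ?_⟩⟩, ?_⟩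
  · constructor
    · intro h
      obtain ⟨m, c, hc, rfl⟩ := (hπ.fibres q q').1 h
      refine Relation.EqvGen.rel _ _ ?_
      have h1 := Step.gen (D := torusData n hπ.pos hπ.unit S) (m, ⟨c, hc⟩) q.1 q.2.1 q.2.2
      simp only [torusData, Matrix.smul_mulVec, Matrix.one_mulVec] at h1
      exact h1
    · intro h
      induction h with
      | rel q q' hs =>
        obtain ⟨i, p, z, s⟩ := hs
        refine (hπ.fibres _ _).2 ⟨i.1, i.2.1, i.2.2, ?_⟩
        simp only [torusData, Matrix.smul_mulVec, Matrix.one_mulVec]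
        rfl
      | refl q => rfl
      | symm q q' _ ih => exact ih.symm
      | trans q q' q'' _ _ ih1 ih2 => exact ih1.trans ih2
  · have h1 := WallC.scalPsi_shift κ hπ.pos x s i.1
    change WallC.scalPsi ρ κ (x, s + fun _ => (i.1 : ℝ)) = _
    rw [h1]
    simp only [torusData, Matrix.smul_mulVec, Matrix.one_mulVec]
    refine Prod.ext rfl ?_
    rw [Complex.coe_smul]
    rfl
  · intro r v hv0 hind
    refine ⟨fun γ Λ L₀ hT => ?_, fun β hβ => ?_⟩
    · choose L hL using hT.iso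
      obtain rfl : L₀ = fun i => ⇑(L i) := funext fun i => funext (hL i)
      have E : ((Fin 1 → ℂ) × (Fin b → ℂ) × (Fin n → ℂ)) ≃L[ℂ] C (b + n + 1) := by
        refine ContinuousLinearEquiv.ofFinrankEq ?_
        rw [Module.finrank_prod, Module.finrank_prod, finrank_euclideanSpace, Fintype.card_fin,
          Module.finrank_fintype_fun_eq_card, Module.finrank_fintype_fun_eq_card,
          Module.finrank_fintype_fun_eq_card, Fintype.card_fin, Fintype.card_fin,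
          Fintype.card_fin]
        ring
      obtain ⟨ε₀, hε₀, hF⟩ := WallC.exists_lifts (d := 2 * n) (ρ := ρ) κ hπ.pos hπ.lt_one hπ.unit
        S hπ.discrete hπ.zero hπ.invariant π hπ.fibres E
        γ hT.period Λ L (by
          intro i z U
          rw [WallC.Tm, zpow_one, zpow_one]
          exact hT.intertwines i z U) v hT.core hv0 (by
          intro i i' z z' hne h
          have h1 := LinearIndependent.pair_iff.1 (hind i i' hne) z (-z') (by
            rw [h, neg_smul, add_neg_cancel])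
          exact ⟨h1.1, neg_eq_zero.1 h1.2⟩)
      refine ⟨ε₀, hε₀, fun ε hε hε1 => ?_⟩
      obtain ⟨g, hg1, hg2⟩ := hF ε hε hε1
      refine ⟨fun i w => (π (g i w).1, (g i w).2), ⟨fun i t c u hu => ?_, hg2⟩,
        fun i t c u hu => ?_⟩
      · obtain ⟨h1, h2⟩ := hg1 i t c u hu
        refine ⟨g i, h1, ?_, Filter.Eventually.of_forall fun w => rfl⟩
        have h3 : ContDiff ℂ ∞ fun w : ℂ × C (b + n) =>
            L i (Complex.exp w.1, (ε : ℂ) • w.2) :=
          (L i).contDiff.comp (contDiff_fst.cexp.prodMk (contDiff_snd.const_smul (ε : ℂ)))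
        exact h3.contDiffAt.congr_of_eventuallyEq h2
      · exact ⟨g i (flat (γ i) (Λ i) t c u), rfl, (hg1 i t c u hu).2.self_of_nhds⟩
    · subst hβ
      have hβ0 : ∀ j, β j ≠ 0 := by
        have h1 := hπ.unit.ne_zero
        rw [Matrix.det_diagonal, Finset.prod_ne_zero_iff] at h1
        exact fun j => h1 j (Finset.mem_univ j)
      choose γ Λ L h1 h2 h3 h4 using fun i =>
        WallC.exists_log hπ.pos hπ.lt_one β hβ0 (v i) (hv0 i)
      refine ⟨γ, Λ, fun i => L i, ⟨h1, fun i => ⟨L i, fun _ => rfl⟩, fun i z U => ?_, h3⟩,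
        fun i => ⟨?_, h4 i⟩⟩
      · have h5 := h2 i z U
        rw [← WallC.ex_one] at h5
        exact h5
      exact WallC.re_pos_of hπ.pos hπ.lt_one (h1 i)

end OwnT

/-- Wall crossing and surgery along elliptic curves. -/
theorem result : MainTheorem ∧ SphereTheorem ∧ TubesTheorem :=
  ⟨main_main, sphere_main, tubes_main⟩

end Pool.Agent.Results.MP_1d980c_gt.WallCrossing
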